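import Pool.Agent.GEN.StmtsPT

/-! Squad GEN, block PT, row KD2: the square of the Koszul differential is zero. -/

set_option autoImplicit false

namespace Pool.Agent.GEN.H68

open Finset Pool.Agent.Helper6_Mono Pool.Agent.Helper30_Simp Pool.Agent.Helper30_Simp2
  Pool.Agent.GEN Pool.Agent.GEN.PT
open scoped Classical

theorem kd_kd {D B : Type} [Fintype D] [CommRing B] (ν : D → ℕ) (hν : Function.Injective ν)
    (f : D → B) (x : Finset D → B) (S : Finset D) : kd ν f (kd ν f x) S = 0 := by
  have hN : ∀ j i : D, j ∉ S → (filter (fun k => ν k < ν i) (insert j S)).card =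
      (filter (fun k => ν k < ν i) S).card + if ν j < ν i then 1 else 0 := by
    intro j i hj
    rw [filter_insert]
    split_ifs with h
    · rw [card_insert_of_notMem]
      intro h1
      exact hj (mem_filter.1 h1).1
    · rw [add_zero]
  obtain ⟨F, hF⟩ : ∃ F : D → D → B, F = fun j i => (-1) ^ (S.filter fun k => ν k < ν j).card *
      (f j * ((-1) ^ ((S.filter fun k => ν k < ν i).card + if ν j < ν i then 1 else 0) *
        (f i * x (insert i (insert j S))))) := ⟨_, rfl⟩
  have h1 : kd ν f (kd ν f x) S =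
      ∑ p ∈ ((univ \ S) ×ˢ (univ \ S)).filter (fun p : D × D => p.1 ≠ p.2), F p.1 p.2 := by
    rw [sum_filter, sum_product]
    unfold kd
    refine sum_congr rfl fun j hj => ?_
    have hj' : j ∉ S := (mem_sdiff.1 hj).2
    rw [← sum_filter (s := univ \ S) (p := fun i => j ≠ i) (f := fun i => F j i)]
    have h2 : (univ \ S).filter (fun i => j ≠ i) = univ \ insert j S := by
      ext i
      simp only [mem_filter, mem_sdiff, mem_univ, true_and, mem_insert, not_or]
      constructor
      · rintro ⟨h, h'⟩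
        exact ⟨fun e => h' e.symm, h⟩
      · rintro ⟨h, h'⟩
        exact ⟨h', fun e => h e.symm⟩
    rw [h2, mul_sum, mul_sum]
    refine sum_congr rfl fun i _ => ?_
    rw [hN j i hj', hF]
  rw [h1]
  refine sum_involution (fun p _ => (p.2, p.1)) ?_ ?_ ?_ ?_
  · rintro ⟨j, i⟩ hp
    have hne : j ≠ i := (mem_filter.1 hp).2
    have hνne : ν j ≠ ν i := fun h => hne (hν h)
    show F j i + F i j = 0
    rw [hF]
    simp only
    rw [insert_comm j i S]
    rcases lt_or_gt_of_ne hνne with h | h
    · rw [if_pos h, if_neg (not_lt.2 h.le)]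
      ring
    · rw [if_neg (not_lt.2 (le_of_lt h)), if_pos h]
      ring
  · rintro ⟨j, i⟩ hp _ heq
    exact (mem_filter.1 hp).2 (Prod.mk.inj heq).2
  · rintro ⟨j, i⟩ hp
    obtain ⟨h2, h3⟩ := mem_filter.1 hp
    obtain ⟨h4, h5⟩ := mem_product.1 h2
    exact mem_filter.2 ⟨mem_product.2 ⟨h5, h4⟩, fun h => h3 h.symm⟩
  · rintro ⟨j, i⟩ _
    rfl

theorem kd2 : Kd2Stmt := by
  intro D B _ _ ν hν
  refine ⟨fun f x S => kd_kd ν hν f x S, ?_, ?_, ?_⟩
  · intro B' _ φ f x S
    unfold kd
    rw [map_sum]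
    refine sum_congr rfl fun j _ => ?_
    rw [map_mul, map_mul, map_pow, map_neg, map_one]
  · intro f x y S
    unfold kd
    rw [← sum_add_distrib]
    refine sum_congr rfl fun j _ => ?_
    ring
  · intro f x p Q hx S hS
    obtain ⟨j, hj, hj2⟩ := exists_ne_zero_of_sum_ne_zero hS
    have h1 : x (insert j S) ≠ 0 := by
      intro h
      apply hj2
      rw [h, mul_zero, mul_zero]
    obtain ⟨h2, h3⟩ := hx _ h1
    rw [card_insert_of_notMem (mem_sdiff.1 hj).2] at h2
    exact ⟨by omega, (subset_insert _ _).trans h3⟩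

end Pool.Agent.GEN.H68
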