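import Pool.Agent.GEN.StmtsPT

/-! Squad GEN, block PT, row KOS: exactness of the Koszul complex of a regular sequence. -/

set_option autoImplicit false

namespace Pool.Agent.GEN.H68

open Finset Pool.Agent.Helper6_Mono Pool.Agent.Helper30_Simp Pool.Agent.Helper30_Simp2
  Pool.Agent.GEN Pool.Agent.GEN.PT
open scoped Classical

variable {D B : Type} [Fintype D] [CommRing B]

omit [Fintype D] in
theorem hg_zero {p : ℕ} {Q : Finset D} {x : Finset D → B} (h : Hg p Q x) {S : Finset D}
    (hS : ¬ (S.card = p ∧ S ⊆ Q)) : x S = 0 := by
  by_contra hx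
  exact hS (h S hx)

/-- the Koszul differential on the sets containing the last element -/
theorem kd_insert (ν : D → ℕ) (hν : Function.Injective ν) (f : D → B) {Q' : Finset D} {j₀ : D}
    (hj : j₀ ∉ Q') (hmax : ∀ i ∈ Q', ν i ≤ ν j₀) {q : ℕ} {x : Finset D → B}
    (hx : Hg q (insert j₀ Q') x) {S : Finset D} (hS : j₀ ∉ S) :
    kd ν f x (insert j₀ S) = kd ν f (fun T => if j₀ ∈ T then 0 else x (insert j₀ T)) S := by
  unfold kd
  have h1 : (univ \ S : Finset D) = insert j₀ (univ \ insert j₀ S) := by
    ext i
    simp only [mem_sdiff, mem_univ, true_and, mem_insert, not_or]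
    constructor
    · intro hi
      by_cases h : i = j₀
      · exact Or.inl h
      · exact Or.inr ⟨h, hi⟩
    · rintro (h | h)
      · rw [h]; exact hS
      · exact h.2
  rw [h1, sum_insert (by simp)]
  have h2 : (if j₀ ∈ insert j₀ S then (0 : B) else x (insert j₀ (insert j₀ S))) = 0 := by
    simp
  show _ = (-1) ^ (filter (fun i => ν i < ν j₀) S).card * (f j₀ *
    (if j₀ ∈ insert j₀ S then (0 : B) else x (insert j₀ (insert j₀ S)))) + _
  rw [h2, mul_zero, mul_zero, zero_add]
  refine sum_congr rfl fun j hj' => ?_
  simp only [mem_sdiff, mem_univ, true_and, mem_insert, not_or] at hj'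
  have h3 : j₀ ∉ insert j S := by
    simp only [mem_insert, not_or]
    exact ⟨fun h => hj'.1 h.symm, hS⟩
  show _ = (-1) ^ (filter (fun i => ν i < ν j) S).card * (f j *
    (if j₀ ∈ insert j S then (0 : B) else x (insert j₀ (insert j S))))
  rw [if_neg h3, insert_comm j₀ j S]
  by_cases hjQ : j ∈ Q'
  · have h4 : (filter (fun i => ν i < ν j) (insert j₀ S)) = filter (fun i => ν i < ν j) S := by
      rw [filter_insert, if_neg (not_lt.2 (hmax j hjQ))]
    rw [h4]
  · have h5 : x (insert j (insert j₀ S)) = 0 := by
      refine hg_zero hx fun h => ?_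
      have h6 := h.2 (mem_insert_self j _)
      rcases mem_insert.1 h6 with h7 | h7
      · exact hj'.1 h7
      · exact hjQ h7
    rw [h5, mul_zero, mul_zero, mul_zero]

theorem kos (h2 : Kd2Stmt) : KosStmt := by
  intro D B _ _ ν hν f Q
  obtain ⟨k1, -, k3, k4⟩ := h2 D B ν hν
  have kz : ∀ S, kd ν f (fun _ => (0 : B)) S = 0 := by
    intro S
    unfold kd
    simp
  have kneg : ∀ (x : Finset D → B) S, kd ν f (fun T => - x T) S = - kd ν f x S := by
    intro x S
    have h := k3 f x (fun T => - x T) S
    have h' : (fun S' => x S' + (fun T => - x T) S') = fun _ => (0 : B) := by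
      funext S'
      simp
    rw [h', kz] at h
    rw [eq_neg_iff_add_eq_zero, add_comm]
    exact h.symm
  induction Q using Finset.induction_on_max_value ν with
  | empty =>
    intro _ p x hx _
    refine ⟨fun _ => 0, fun S h => absurd rfl h, fun S => ?_⟩
    rw [kz]
    symm
    refine hg_zero hx fun h => ?_
    have h3 : S = ∅ := subset_empty.1 h.2
    rw [h3] at h
    simp at h
  | insert j₀ Q' hj hmax ih =>
    intro hreg p x hx hkx
    have hreg' : ∀ Q'' ⊆ Q', ∀ j ∈ Q', j ∉ Q'' → ∀ g,
        f j * g ∈ Ideal.span (f '' (Q'' : Set D)) → g ∈ Ideal.span (f '' (Q'' : Set D)) :=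
      fun Q'' hQ j hj' hn g hg => hreg Q'' (hQ.trans (subset_insert _ _)) j
        (mem_insert_of_mem hj') hn g hg
    have ih' := ih hreg'
    -- the part `b`
    set b : Finset D → B := fun T => if j₀ ∈ T then 0 else x (insert j₀ T) with hb
    have hbg : Hg p Q' b := by
      intro S hS
      have h1 : j₀ ∉ S := by
        intro h
        apply hS
        simp [hb, h]
      have h3 : x (insert j₀ S) ≠ 0 := by
        intro h
        apply hS
        simp [hb, h1, h]
      obtain ⟨h4, h5⟩ := hx _ h3
      rw [card_insert_of_notMem h1] at h4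
      refine ⟨by omega, fun i hi => ?_⟩
      rcases mem_insert.1 (h5 (mem_insert_of_mem hi)) with h6 | h6
      · exact absurd (h6 ▸ hi) h1
      · exact h6
    have hkb : ∀ S, kd ν f b S = 0 := by
      intro S
      by_cases hS : j₀ ∈ S
      · unfold kd
        refine sum_eq_zero fun j _ => ?_
        have h1 : b (insert j S) = 0 := by
          simp [hb, hS]
        rw [h1, mul_zero, mul_zero]
      · rw [hb, ← kd_insert ν hν f hj hmax hx hS]
        exact hkx _
    -- the claim
    have hc : ∃ c, Hg (p + 1) Q' c ∧ ∀ S, kd ν f c S = b S := by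
      rcases p with _ | p
      · -- degree 0
        have h1 := hkx ∅
        have h3 : kd ν f x ∅ = f j₀ * b ∅ + ∑ j ∈ Q', f j * x {j} := by
          have h4 : kd ν f x ∅ = ∑ j : D, f j * x {j} := by
            unfold kd
            simp
          have h5 : ∑ j : D, f j * x {j} = ∑ j ∈ insert j₀ Q', f j * x {j} := by
            symm
            refine sum_subset (subset_univ _) fun j _ hjn => ?_
            have h6 : x {j} = 0 := by
              refine hg_zero hx fun h => hjn ?_
              exact h.2 (mem_singleton_self j)
            rw [h6, mul_zero]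
          rw [h4, h5, sum_insert hj]
          simp [hb]
        rw [h3] at h1
        have h4 : f j₀ * b ∅ ∈ Ideal.span (f '' (Q' : Set D)) := by
          have h5 : f j₀ * b ∅ = - ∑ j ∈ Q', f j * x {j} := by
            rw [eq_neg_iff_add_eq_zero]
            exact h1
          rw [h5]
          refine Submodule.neg_mem _ (Submodule.sum_mem _ fun j hj' => ?_)
          exact Ideal.mul_mem_right _ _ (Ideal.subset_span ⟨j, hj', rfl⟩)
        have h5 := hreg Q' (subset_insert _ _) j₀ (mem_insert_self _ _) hj _ h4
        obtain ⟨c, hc⟩ := (Submodule.mem_span_image_finset_iff_exists_fun' B).1 h5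
        refine ⟨fun S => ∑ j ∈ Q', if S = {j} then c j else 0, ?_, ?_⟩
        · intro S hS
          obtain ⟨j, hj', hj2⟩ := exists_ne_zero_of_sum_ne_zero hS
          have h6 : S = {j} := by
            by_contra h
            exact hj2 (if_neg h)
          rw [h6]
          exact ⟨card_singleton j, singleton_subset_iff.2 hj'⟩
        · have hcg : Hg (0 + 1) Q' (fun S => ∑ j ∈ Q', if S = {j} then c j else 0) := by
            intro S hS
            obtain ⟨j, hj', hj2⟩ := exists_ne_zero_of_sum_ne_zero hS
            have h6 : S = {j} := by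
              by_contra h
              exact hj2 (if_neg h)
            rw [h6]
            exact ⟨card_singleton j, singleton_subset_iff.2 hj'⟩
          intro S
          by_cases hS : S = ∅
          · subst hS
            have h7 : kd ν f (fun S => ∑ j ∈ Q', if S = {j} then c j else 0) ∅ =
                ∑ i : D, f i * ∑ j ∈ Q', if ({i} : Finset D) = {j} then c j else 0 := by
              unfold kd
              simp
            rw [h7, ← hc]
            have h8 : ∀ i : D, (f i * ∑ j ∈ Q', if ({i} : Finset D) = {j} then c j else 0) =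
                if i ∈ Q' then c i • f i else 0 := by
              intro i
              have h9 : (∑ j ∈ Q', if ({i} : Finset D) = {j} then c j else 0) =
                  if i ∈ Q' then c i else 0 := by
                simp only [singleton_inj]
                rw [sum_ite_eq Q' i c]
              rw [h9]
              split_ifs
              · rw [smul_eq_mul, mul_comm]
              · rw [mul_zero]
            rw [sum_congr rfl fun i _ => h8 i, ← sum_filter]
            simp
          · have h7 : kd ν f (fun S => ∑ j ∈ Q', if S = {j} then c j else 0) S = 0 := by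
              refine hg_zero (k4 f _ 0 Q' hcg) fun h => hS ?_
              exact card_eq_zero.1 h.1
            have h8 : b S = 0 := by
              refine hg_zero hbg fun h => hS ?_
              exact card_eq_zero.1 h.1
            rw [h7, h8]
      · exact ih' p b hbg hkb
    obtain ⟨c, hcg, hck⟩ := hc
    -- the correction
    set c' : Finset D → B := fun T => if j₀ ∈ T then c (T.erase j₀) else 0 with hc'
    have hc'g : Hg (p + 2) (insert j₀ Q') c' := by
      intro S hS
      have h1 : j₀ ∈ S := by
        by_contra h
        apply hS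
        simp [hc', h]
      have h3 : c (S.erase j₀) ≠ 0 := by
        intro h
        apply hS
        simp [hc', h1, h]
      obtain ⟨h4, h5⟩ := hcg _ h3
      rw [card_erase_of_mem h1] at h4
      have h6 : 0 < S.card := card_pos.2 ⟨j₀, h1⟩
      refine ⟨by omega, fun i hi => ?_⟩
      by_cases h7 : i = j₀
      · rw [h7]; exact mem_insert_self _ _
      · exact mem_insert_of_mem (h5 (mem_erase.2 ⟨h7, hi⟩))
    have hc'k : ∀ S, j₀ ∉ S → kd ν f c' (insert j₀ S) = b S := by
      intro S hS
      rw [kd_insert ν hν f hj hmax hc'g hS]
      have h1 : (fun T => if j₀ ∈ T then 0 else c' (insert j₀ T)) = c := by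
        funext T
        by_cases hT : j₀ ∈ T
        · rw [if_pos hT]
          symm
          refine hg_zero hcg fun h => hj (h.2 hT)
        · rw [if_neg hT]
          simp [hc', hT]
      rw [h1, hck]
    set x' : Finset D → B := fun T => x T + - kd ν f c' T with hx'
    have hx'g : Hg (p + 1) Q' x' := by
      intro S hS
      have h1 : S.card = p + 1 ∧ S ⊆ insert j₀ Q' := by
        by_contra h
        apply hS
        have h3 : x S = 0 := hg_zero hx h
        have h4 : kd ν f c' S = 0 := hg_zero (k4 f _ (p + 1) _ hc'g) h
        simp [hx', h3, h4]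
      refine ⟨h1.1, fun i hi => ?_⟩
      rcases mem_insert.1 (h1.2 hi) with h3 | h3
      · exfalso
        apply hS
        have h4 : j₀ ∈ S := h3 ▸ hi
        have h5 : insert j₀ (S.erase j₀) = S := insert_erase h4
        have h6 := hc'k (S.erase j₀) (notMem_erase _ _)
        rw [h5] at h6
        have h7 : b (S.erase j₀) = x S := by
          simp [hb, h5]
        simp only [hx']
        rw [h6, h7, add_neg_cancel]
      · exact h3
    have hx'k : ∀ S, kd ν f x' S = 0 := by
      intro S
      rw [hx', k3 f x (fun T => - kd ν f c' T) S, hkx, kneg, k1, neg_zero, add_zero]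
    obtain ⟨y', hy'g, hy'k⟩ := ih' p x' hx'g hx'k
    refine ⟨fun T => y' T + c' T, ?_, fun S => ?_⟩
    · intro S hS
      by_cases h1 : y' S = 0
      · have h3 : c' S ≠ 0 := by
          intro h
          apply hS
          show y' S + c' S = 0
          rw [h1, h, add_zero]
        exact hc'g S h3
      · obtain ⟨h3, h4⟩ := hy'g S h1
        exact ⟨h3, h4.trans (subset_insert _ _)⟩
    · rw [k3 f y' c' S, hy'k, hx']
      show x S + - kd ν f c' S + kd ν f c' S = x S
      rw [neg_add_cancel_right]

end Pool.Agent.GEN.H68
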